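import Pool.Agent.V5helper90.KD.StmX
import Pool.Agent.V5helper65.KSC.A5

/-!
# KH, job HOK: the matrices of a Hodge class on `X × (Y × Y)` form an equivariant family
-/

set_option linter.unusedSectionVars false

open CategoryTheory AlgebraicGeometry TensorProduct

universe u

namespace Pool.Agent.V5helper65.KD

open Module Matrix ComplexConjugate Pool.Agent.N996.BP
open Pool.Agent.H914 Pool.Agent.H914.VarClass Pool.Agent.H914.VarClass.Obj
  Pool.Agent.H914.WeilCohomology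
open Pool.Agent.Y133.Half Pool.Agent.Y121.AH
open Pool.Agent.N996.BP.Geo
open Pool.Agent.V5helper10.KSC
open Pool.Agent.V5helper90.KD (lin ro IsFam IsProjH OneG S_HOK)
open Pool.Agent.V5helper59.KD
open Pool.Agent.V5helper65.KSC (bc bc_em bc_corr lop_corr)
open Pool.Agent.V5helper18.KD.COP (phi_inc)

variable {k : Type u} [Field k] {𝒱 : VarClass k} {ops : CycleOps 𝒱} {T : HodgeTheory ops}
  {X Y : 𝒱.Obj}

/-- the degree of the value of a correspondence -/
lemma corr_deg (W : WeilCohomology.{u, 0} ops) {X Y : 𝒱.Obj} {q i j : ℕ} {c : W.H (X.prod Y)}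
    (hc : c ∈ W.gr (X.prod Y) q) {a : W.H X} (ha : a ∈ W.gr X i) (hj : q + i = j + 2 * X.dim) :
    W.corr c a ∈ W.gr Y j := by
  have h1 := W.push_mem (snd X Y) (W.mul_mem hc (W.map_mem (fst X Y) ha))
  rw [corr_apply]
  have e : ((q + i : ℕ) : ℤ) + 2 * ((Y.dim : ℤ) - (X.prod Y).dim) = ((j : ℕ) : ℤ) := by
    rw [dim_prod]
    have h2 : ((q + i : ℕ) : ℤ) = ((j + 2 * X.dim : ℕ) : ℤ) := by rw [hj]
    rw [h2]
    push_cast
    ring
  rwa [e, grZ_natCast] at h1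

/-- correspondences and the operators `t ^ (p - q)` -/
lemma lop_corr2 {t : ℂ} (ht : t ≠ 0) (w : (CW T).H (X.prod Y)) (x : (CW T).H X) :
    lop T t Y ((CW T).corr w x) = (CW T).corr (lop T t (X.prod Y) w) (lop T t X x) := by
  rw [corr_apply, corr_apply, lop_push, lop_mul ht, lop_map]

variable (T) in
/-- the operator of `H(Y)` given by an element of `H(X)` -/
noncomputable def tw {X Y : 𝒱.Obj} (c : T.W.H (X.prod (Y.prod Y))) (V : ℂ ⊗[T.W.K] T.W.H X)
    (x : ℂ ⊗[T.W.K] T.W.H Y) : ℂ ⊗[T.W.K] T.W.H Y :=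
  (CW T).corr ((CW T).corr (em T.W ℂ c) V) x

lemma tw_lo {c : T.W.H (X.prod (Y.prod Y))} (hc : Inv T (X.prod (Y.prod Y)) c) {t : ℂ}
    (ht : t ≠ 0) (V : ℂ ⊗[T.W.K] T.W.H X) (x : ℂ ⊗[T.W.K] T.W.H Y) :
    lo T t Y (tw T c V x) = tw T c (lo T t X V) (lo T t Y x) := by
  have h1 := lop_corr2 (T := T) ht ((CW T).corr (em T.W ℂ c) V) x
  rw [lop_corr hc ht] at h1
  exact h1

lemma tw_add (c : T.W.H (X.prod (Y.prod Y))) (V V' : ℂ ⊗[T.W.K] T.W.H X)
    (x : ℂ ⊗[T.W.K] T.W.H Y) : tw T c (V + V') x = tw T c V x + tw T c V' x := by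
  have h1 : (CW T).corr (em T.W ℂ c) (V + V') =
      (CW T).corr (em T.W ℂ c) V + (CW T).corr (em T.W ℂ c) V' := map_add _ _ _
  have h2 := congrArg (fun w => (CW T).corr w x) h1
  rw [corr_add] at h2
  exact h2

lemma tw_smul (c : T.W.H (X.prod (Y.prod Y))) (z : ℂ) (V : ℂ ⊗[T.W.K] T.W.H X)
    (x : ℂ ⊗[T.W.K] T.W.H Y) : tw T c (z • V) x = z • tw T c V x := by
  have h1 : (CW T).corr (em T.W ℂ c) ((show (CW T).K from z) • (show (CW T).H X from V)) =
      (show (CW T).K from z) • (CW T).corr (em T.W ℂ c) V := map_smul _ _ _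
  have h2 := congrArg (fun w => (CW T).corr w x) h1
  rw [corr_smul] at h2
  exact h2

lemma tw_zero (c : T.W.H (X.prod (Y.prod Y))) (x : ℂ ⊗[T.W.K] T.W.H Y) : tw T c 0 x = 0 := by
  have h1 := tw_smul (T := T) c 0 0 x
  rwa [zero_smul, zero_smul] at h1

lemma tw_sum (c : T.W.H (X.prod (Y.prod Y))) {α : Type} (s : Finset α) (z : α → ℂ)
    (V : α → ℂ ⊗[T.W.K] T.W.H X) (x : ℂ ⊗[T.W.K] T.W.H Y) :
    tw T c (∑ i ∈ s, z i • V i) x = ∑ i ∈ s, z i • tw T c (V i) x := by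
  classical
  induction s using Finset.induction_on with
  | empty => rw [Finset.sum_empty, Finset.sum_empty, tw_zero]
  | insert a s ha ih => rw [Finset.sum_insert ha, Finset.sum_insert ha, tw_add, tw_smul, ih]

lemma tw_one (c : T.W.H (X.prod (Y.prod Y))) (a : T.W.H X) (x : ℂ ⊗[T.W.K] T.W.H Y) :
    tw T c ((1 : ℂ) ⊗ₜ[T.W.K] a) x = (T.W.corr (T.W.corr c a)).baseChange ℂ x := by
  have h1 : (CW T).corr (em T.W ℂ c) (em T.W ℂ a) = em T.W ℂ (T.W.corr c a) := by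
    rw [← bc_corr, bc_em]
  have h2 : (CW T).corr ((CW T).corr (em T.W ℂ c) (em T.W ℂ a)) =
      bc (T.W.corr (T.W.corr c a)) := by
    rw [h1, bc_corr]
  have h3 := LinearMap.congr_fun h2 (show (CW T).H Y from x)
  exact h3

theorem t_HOK : S_HOK.{u} := by
  intro k _ 𝒱 ops T X D hK ι _ _ M w hM Y η hY κ _ _ b p hp hpr c hc
  classical
  have hinv : Inv T (X.prod (Y.prod Y)) c := fun t _ => lop_hodge hc
  -- degrees
  have hdeg : ∀ i ∈ M.tt, ∀ l, T.W.corr (T.W.corr c (M.e i)) (b l : T.W.H Y) ∈ T.W.gr Y 1 := by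
    intro i hi l
    have h2 : M.e i ∈ T.W.gr X 2 := by
      refine M.hB.two i ?_ ?_
      · rintro rfl; exact M.hB.ot hi
      · rintro rfl; exact M.hB.pt' hi
    have h3 : T.W.corr c (M.e i) ∈ T.W.gr (Y.prod Y) (2 * Y.dim) :=
      corr_deg T.W hc.1 h2 (by rw [hK.dim]; ring)
    exact corr_deg T.W h3 (b l).2 (by ring)
  -- the matrices
  have hq : ∀ i j l, ∃ q : ℚ, (q : T.W.K) =
      if h : T.W.corr (T.W.corr c (M.e i)) (b l : T.W.H Y) ∈ T.W.gr Y 1 then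
        b.repr ⟨_, h⟩ j else 0 := fun i j l => T.rat _
  choose g hg using hq
  obtain ⟨G, hG⟩ : ∃ G : ι → Matrix κ κ ℚ, G = fun i => if i ∈ M.tt then Matrix.of (g i) else 0 :=
    ⟨_, rfl⟩
  have hoff : ∀ i, i ∉ M.tt → G i = 0 := fun i hi => by simp only [hG, if_neg hi]
  have hval : ∀ i ∈ M.tt, ∀ l, T.W.corr (T.W.corr c (M.e i)) (b l : T.W.H Y) =
      ∑ j, ((G i j l : ℚ) : T.W.K) • (b j : T.W.H Y) := by
    intro i hi l
    have h1 := hdeg i hi l
    have h2 : ∀ j, ((G i j l : ℚ) : T.W.K) = b.repr ⟨_, h1⟩ j := by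
      intro j
      have h3 : G i j l = g i j l := by
        simp only [hG, if_pos hi, Matrix.of_apply]
      rw [h3, hg, dif_pos h1]
    have h4 := congrArg Subtype.val (b.sum_repr ⟨_, h1⟩)
    rw [Submodule.coe_sum] at h4
    refine h4.symm.trans (Finset.sum_congr rfl fun j _ => ?_)
    rw [h2 j]
    rfl
  -- the operator in coordinates
  have hcrd : ∀ v ∈ TC M.tt, ∀ V : ℂ ⊗[T.W.K] T.W.H X, crd M.e V = v → ∀ x : ℂ ⊗[T.W.K] T.W.gr Y 1,
      tw T c V (inc T Y x) = inc T Y (vc b (lin G v *ᵥ crd b x)) := by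
    intro v hv V hV x
    have h1 : tw T c V (inc T Y x) = ∑ i, v i • inc T Y (vc b (cQ (G i) *ᵥ crd b x)) := by
      conv_lhs => rw [crd_sum M.e V]
      rw [tw_sum, hV]
      refine Finset.sum_congr rfl fun i _ => ?_
      by_cases hi : i ∈ M.tt
      · rw [tw_one, phi_inc b (A := G i) (fun l => hval i hi l)]
      · rw [hv i hi, zero_smul, zero_smul]
    rw [h1, Pool.Agent.V5helper90.KD.lin, Matrix.sum_mulVec]
    have h2 : vc b (∑ i, (v i • cQ (G i)) *ᵥ crd b x) = ∑ i, v i • vc b (cQ (G i) *ᵥ crd b x) := by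
      unfold vc
      rw [map_sum]
      refine Finset.sum_congr rfl fun i _ => ?_
      rw [Matrix.smul_mulVec, map_smul]
    rw [h2, map_sum]
    refine Finset.sum_congr rfl fun i _ => ?_
    rw [map_smul]
  refine ⟨G, ⟨hoff, ?_⟩, hval⟩
  intro t ht v hv
  obtain ⟨V, hV⟩ : ∃ V, V = (M.e.baseChange ℂ).equivFun.symm v := ⟨_, rfl⟩
  have hcV : crd M.e V = v := by
    have h1 : crd M.e V = (M.e.baseChange ℂ).equivFun V := by
      rw [Basis.equivFun_apply]
      rfl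
    rw [h1, hV, LinearEquiv.apply_symm_apply]
  have hcl : crd M.e (lo T t X V) = M.H.l t *ᵥ v := by
    rw [M.hH t ht, ← hcV]
    exact crd_dG _ M.e _ V
  have hmain : ro p t * lin G v = lin G (M.H.l t *ᵥ v) * ro p t := by
    rw [Matrix.ext_iff_mulVec]
    intro y
    obtain ⟨x', hx', hcx'⟩ := hpr t (vc b y)
    rw [crd_vc] at hcx'
    obtain ⟨x2, hx2, hcx2⟩ := hpr t (vc b (lin G v *ᵥ y))
    rw [crd_vc] at hcx2
    have h1 := hcrd v hv V hcV (vc b y)
    rw [crd_vc] at h1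
    have h2 := tw_lo hinv ht V (inc T Y (vc b y))
    rw [h1, ← hx', ← hx2, hcrd _ (l_TC hM ht hv) _ hcl x'] at h2
    have h3 := congrArg (crd b) (inc_inj h2)
    rw [crd_vc, hcx2, hcx'] at h3
    rw [← Matrix.mulVec_mulVec, ← Matrix.mulVec_mulVec]
    exact h3
  rw [hmain, Matrix.mul_assoc, ro_mul_inv hp ht, Matrix.mul_one]

end Pool.Agent.V5helper65.KD
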